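import Pool.Agent.helper41.G5.SpecG

/-!
# Row d2:gVPR (MP_5823cb_al): the projections on the cells of level `u ≤ s` (helper40)
-/

set_option autoImplicit false

open Filter Topology MeasureTheory
open scoped commutatorElement

namespace Pool.Agent.helper90.DH

open Pool.Agent.helper64.D2

theorem gVPR_mem (s : ℕ) (k : ℤ) (x : ℝ) : x ∈ cell s k ↔ ci s x = k := by
  have hp : (0 : ℝ) < 2 ^ s := by positivity
  unfold cell ci
  rw [Int.floor_eq_iff, Set.mem_Ico, div_le_iff₀ hp, lt_div_iff₀ hp, mul_comm x]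

theorem gVPR_ci (u s : ℕ) (h : u ≤ s) (x : ℝ) : ci u x = ci s x / (2 ^ (s - u) : ℤ) := by
  unfold ci
  have hp : (0 : ℤ) < 2 ^ (s - u) := by positivity
  have hpr : (0 : ℝ) < 2 ^ (s - u) := by positivity
  have h1 : (2 : ℝ) ^ s * x = 2 ^ (s - u) * (2 ^ u * x) := by
    rw [← mul_assoc, ← pow_add, Nat.sub_add_cancel h]
  symm
  rw [Int.ediv_eq_iff_of_pos hp]
  have h2 := Int.floor_le ((2 : ℝ) ^ u * x)
  have h3 := Int.lt_floor_add_one ((2 : ℝ) ^ u * x)
  rw [h1]
  constructor
  · rw [Int.le_floor]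
    push_cast
    nlinarith
  · rw [Int.floor_lt]
    push_cast
    nlinarith

theorem gVPR_cell (u s : ℕ) (h : u ≤ s) (k j : ℤ) :
    (∀ x ∈ cell s k, x ∈ cell u j) ∨ (∀ x ∈ cell s k, x ∉ cell u j) := by
  by_cases hk : k / (2 ^ (s - u) : ℤ) = j
  · left
    intro x hx
    rw [gVPR_mem] at hx ⊢
    rw [gVPR_ci u s h x, hx, hk]
  · right
    intro x hx hx2
    rw [gVPR_mem] at hx hx2
    rw [gVPR_ci u s h x, hx] at hx2
    exact hk hx2

theorem gVPR_meas (s : ℕ) (k : ℤ) : MeasurableSet (cell s k) := measurableSet_Ico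

theorem gVPR_Es (s : ℕ) (f g : ℝ → ℝ) (x : ℝ) (h : ∀ t ∈ cell s (ci s x), f t = g t) : Es s f x = Es s g x := by
  have h1 : (∫ t in cell s (ci s x), f t) = ∫ t in cell s (ci s x), g t :=
    setIntegral_congr_fun (gVPR_meas _ _) h
  have h2 : (∫ t in cell s (ci s x), (t - mid s x) * f t) = ∫ t in cell s (ci s x), (t - mid s x) * g t :=
    setIntegral_congr_fun (gVPR_meas _ _) (fun t ht => by simp only [h t ht])
  unfold Es
  rw [h1, h2]

theorem gVPR_VS (s u : ℕ) (h : u ≤ s) (j : ℤ) (f : ℝ → ℝ) (hf : VS s f) : VS s ((cell u j).indicator f) := by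
  obtain ⟨h1, h2, h3⟩ := hf
  refine ⟨fun k => ?_, fun x hx => ?_, fun x => ?_⟩
  · rcases gVPR_cell u (s + 1) (by omega) k j with h4 | h4
    · obtain ⟨a, b, hab⟩ := h1 k
      refine ⟨a, b, fun x hx => ?_⟩
      rw [Set.indicator_of_mem (h4 x hx)]
      exact hab x hx
    · refine ⟨0, 0, fun x hx => ?_⟩
      rw [Set.indicator_of_notMem (h4 x hx)]
      ring
  · by_cases hx2 : x ∈ cell u j
    · rw [Set.indicator_of_mem hx2]
      exact h2 x hx
    · rw [Set.indicator_of_notMem hx2]
  · rcases gVPR_cell u s h (ci s x) j with h4 | h4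
    · rw [gVPR_Es s ((cell u j).indicator f) f x (fun t ht => Set.indicator_of_mem (h4 t ht) f)]
      exact h3 x
    · rw [gVPR_Es s ((cell u j).indicator f) (fun _ => 0) x (fun t ht => Set.indicator_of_notMem (h4 t ht) f)]
      unfold Es
      simp

theorem gVPR_sum (u : ℕ) (f : ℝ → ℝ) (hf : Su f) (x : ℝ) :
    ∑ j : Fin (2 ^ u), (cell u ((j : ℕ) : ℤ)).indicator f x = f x := by
  by_cases hx : x ∈ Set.Icc (1 / 5 : ℝ) (4 / 5)
  · have h0 : 0 ≤ ci u x := by
      unfold ci
      rw [Int.floor_nonneg]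
      have := hx.1
      positivity
    have h1 : ci u x < 2 ^ u := by
      unfold ci
      rw [Int.floor_lt]
      push_cast
      have h2 := hx.2
      have hp : (0 : ℝ) < 2 ^ u := by positivity
      nlinarith
    have h2 : ((ci u x).toNat : ℤ) = ci u x := Int.toNat_of_nonneg h0
    have h3 : (ci u x).toNat < 2 ^ u := by
      have : ((ci u x).toNat : ℤ) < ((2 ^ u : ℕ) : ℤ) := by
        rw [h2]; push_cast; exact h1
      exact_mod_cast this
    rw [Finset.sum_eq_single (⟨(ci u x).toNat, h3⟩ : Fin (2 ^ u))]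
    · rw [Set.indicator_of_mem]
      rw [gVPR_mem]
      exact h2.symm
    · intro j _ hj
      rw [Set.indicator_of_notMem]
      rw [gVPR_mem]
      intro h4
      apply hj
      apply Fin.ext
      show (j : ℕ) = (ci u x).toNat
      rw [h4]
      simp
    · intro h4
      exact absurd (Finset.mem_univ _) h4
  · rw [hf x hx]
    apply Finset.sum_eq_zero
    intro j _
    by_cases h4 : x ∈ cell u ((j : ℕ) : ℤ)
    · rw [Set.indicator_of_mem h4, hf x hx]
    · rw [Set.indicator_of_notMem h4]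

theorem gVPR : gVPR_stmt := by
  intro s u n D F hus hnD hVS hsurj hinner
  -- injectivity
  have hinj : ∀ v w, F v = F w → v = w := by
    intro v w h
    have h1 : F (v - w) = 0 := by rw [map_sub, h, sub_self]
    have h2 := hinner (v - w) (v - w)
    rw [h1] at h2
    simp only [Pi.zero_apply, mul_zero, integral_zero] at h2
    have h3 := inner_self_eq_zero.mp h2.symm
    exact sub_eq_zero.mp h3
  have hex : ∀ (j : Fin (2 ^ u)) (v : EuclideanSpace ℝ (Fin n)), ∃ w, F w = (cell u ((j : ℕ) : ℤ)).indicator (F v) :=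
    fun j v => hsurj _ (gVPR_VS s u hus _ _ (hVS v))
  choose p hp using hex
  let P0 : Fin (2 ^ u) → EuclideanSpace ℝ (Fin n) →ₗ[ℝ] EuclideanSpace ℝ (Fin n) := fun j =>
    { toFun := p j
      map_add' := fun v w => by
        apply hinj
        rw [map_add, hp, hp, hp, map_add, Set.indicator_add']
      map_smul' := fun c v => by
        apply hinj
        rw [RingHom.id_apply, map_smul, hp, hp, map_smul]
        exact Set.indicator_const_smul _ c _ }
  let P : Fin (2 ^ u) → EuclideanSpace ℝ (Fin n) →L[ℝ] EuclideanSpace ℝ (Fin n) := fun j => LinearMap.toContinuousLinearMap (P0 j)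
  have hP : ∀ j v, F (P j v) = (cell u ((j : ℕ) : ℤ)).indicator (F v) := fun j v => hp j v
  refine ⟨P, ⟨?_, ?_, ?_, ?_, ?_⟩, hP⟩
  · intro j
    ext1 v
    apply hinj
    rw [ContinuousLinearMap.comp_apply, hP, hP, Set.indicator_indicator, Set.inter_self]
  · intro j v w
    rw [← hinner, ← hinner, hP, hP]
    congr 1
    funext x
    by_cases hx : x ∈ cell u ((j : ℕ) : ℤ)
    · rw [Set.indicator_of_mem hx, Set.indicator_of_mem hx]
    · rw [Set.indicator_of_notMem hx, Set.indicator_of_notMem hx, zero_mul, mul_zero]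
  · intro j j' hj
    ext1 v
    apply hinj
    rw [ContinuousLinearMap.comp_apply, hP, hP, Set.indicator_indicator, zero_apply, map_zero]
    have : cell u ((j : ℕ) : ℤ) ∩ cell u ((j' : ℕ) : ℤ) = ∅ := by
      ext x
      simp only [Set.mem_inter_iff, Set.mem_empty_iff_false, iff_false, not_and]
      intro h1 h2
      rw [gVPR_mem] at h1 h2
      apply hj
      apply Fin.ext
      have : ((j : ℕ) : ℤ) = ((j' : ℕ) : ℤ) := h1.symm.trans h2
      exact_mod_cast this
    rw [this, Set.indicator_empty]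
    rfl
  · ext1 v
    apply hinj
    rw [sum_apply, map_sum, ContinuousLinearMap.id_apply]
    funext x
    rw [Finset.sum_apply]
    simp only [hP]
    exact gVPR_sum u (F v) (hVS v).2.1 x
  · intro j
    have h1 := LinearMap.finrank_range_le ((P j : EuclideanSpace ℝ (Fin n) →L[ℝ] EuclideanSpace ℝ (Fin n)) : EuclideanSpace ℝ (Fin n) →ₗ[ℝ] EuclideanSpace ℝ (Fin n))
    rw [finrank_euclideanSpace, Fintype.card_fin] at h1
    exact h1.trans hnD

end Pool.Agent.helper90.DH
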